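import Pool.Agent.Helper41.INR.Main

namespace Pool.Agent.Results.MP_f59665_co.AbsoluteBoundFails

open Pool.Agent.Helper16.Inertia
open Pool.Agent.Helper41.INR

/-- For every `k ≥ 4` there is a finite simple graph with `n⁻ = k` and `2 n⁺ = k (k + 1) + 2`. -/
theorem result : ∀ k : ℕ, 4 ≤ k → ∃ (n : ℕ) (G : SimpleGraph (Fin n)),
    nMinus G = k ∧ 2 * nPlus G = k * (k + 1) + 2 := by
  intro k hk
  obtain ⟨h1, h2⟩ := inertia_gr k hk
  obtain ⟨n, H, e1, e2⟩ := transport (gr (k + 1))
  refine ⟨n, H, by rw [e2]; exact h1, ?_⟩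
  have e : nPlus H = (k + 1).choose 2 + 1 := e1.trans h2
  have h3 : 2 * (k + 1).choose 2 = k * (k + 1) := by
    have h5 : (k + 1).choose 2 = (k + 1) * k / 2 := by
      rw [Nat.choose_two_right]
      simp
    have h6 : 2 ∣ (k + 1) * k := by
      have := (Nat.even_mul_succ_self k).two_dvd
      rwa [mul_comm] at this
    rw [h5, Nat.mul_div_cancel' h6, mul_comm]
  omega

end Pool.Agent.Results.MP_f59665_co.AbsoluteBoundFails
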