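import Pool.Agent.Helper16.Code
import Pool.Agent.Helper16.Asym

namespace Pool.Agent.Results.MP_f59665_co.EightThirds

open Pool.Agent.Helper16.Inertia

/-- Signed list of monomials: the agreement function of the construction. -/
def cert : List (List (Fin 10) × ℤ) :=
  [([], 1), ([3], -1), ([1], -1), ([0], -1), ([9], -1), ([6], -1), ([2, 3], 1), ([1, 3], 1),
   ([1, 2], 1), ([0, 3], 1), ([0, 2], 1), ([0, 1], 1), ([3, 9], 1), ([1, 9], 1), ([0, 9], 1),
   ([0, 4], 1), ([1, 5], 1), ([3, 6], 1), ([1, 6], 1), ([0, 6], 1), ([6, 7], 1), ([6, 8], 1),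
   ([6, 9], 1), ([1, 2, 3], -1), ([0, 2, 3], -1), ([0, 1, 3], -1), ([0, 1, 2], -1),
   ([2, 3, 9], -1), ([1, 3, 9], -1), ([0, 3, 9], -1), ([0, 1, 9], -1), ([3, 7, 8], 1),
   ([0, 2, 4], -1), ([0, 4, 8], -1), ([1, 2, 5], -1), ([1, 5, 7], -1), ([1, 2, 6], -1),
   ([0, 2, 6], -1), ([0, 1, 6], -1), ([3, 6, 7], -1), ([3, 6, 8], -1), ([3, 6, 9], -1),
   ([6, 7, 8], -2), ([1, 4, 5], -1), ([0, 4, 5], -1), ([0, 1, 2, 3], 1), ([0, 1, 3, 9], 1),
   ([0, 1, 2, 6], 1), ([3, 6, 7, 8], 1), ([1, 2, 4, 5], 1), ([0, 2, 4, 5], 1), ([4, 5, 7, 8], 1),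
   ([0, 1, 2, 3, 4, 5, 7, 8], 1)]

/-- Two equal entries force the third one. -/
def closed3 (a b c : Bool) : Bool := (!(a && b) || c) && (!(a && c) || b) && (!(b && c) || a)

/-- In each of the two planes, agreement in two of the three directions forces agreement
in the third one. -/
def closedB (b : Fin 10 → Bool) : Bool :=
  closed3 (b 4) (b 5) (b 6) && closed3 (b 7) (b 8) (b 9)

theorem cert_check : (List.range 1024).all (fun s =>
    (!(closedB fun i => s.testBit i) ||
      (evalB cert (fun i => s.testBit i) == 0 || evalB cert (fun i => s.testBit i) == 1))) =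
    true := by
  decide +kernel

theorem cert_top : evalB cert (fun _ => true) = 0 := by
  decide +kernel

theorem cert_bool (b : Fin 10 → Bool) (hb : closedB b = true) :
    evalB cert b = 0 ∨ evalB cert b = 1 := by
  refine bool_of_check cert closedB ?_ b hb
  intro s hs
  exact List.all_eq_true.1 cert_check s (List.mem_range.2 hs)

/-- The ten coordinate functionals on `(ZMod q)^8`. -/
def lin (q : ℕ) : Fin 10 → (Fin 8 → ZMod q) → ZMod q :=
  ![fun x => x 0, fun x => x 1, fun x => x 2, fun x => x 3,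
    fun x => x 4, fun x => x 5, fun x => x 4 + x 5,
    fun x => x 6, fun x => x 7, fun x => x 6 + x 7]

theorem closed3_lin {R : Type*} [AddGroup R] [DecidableEq R] (a b c d : R) :
    closed3 (decide (a = c)) (decide (b = d)) (decide (a + b = c + d)) = true := by
  unfold closed3
  by_cases h1 : a = c
  · subst h1
    by_cases h2 : b = d
    · subst h2; simp
    · simp [h2]
  · by_cases h2 : b = d
    · subst h2; simp [h1]
    · simp [h1, h2]

theorem lin_closed (q : ℕ) (x y : Fin 8 → ZMod q) : closedB (agreeB (lin q) x y) = true := by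
  unfold closedB
  rw [Bool.and_eq_true]
  exact ⟨closed3_lin (x 4) (x 5) (y 4) (y 5), closed3_lin (x 6) (x 7) (y 6) (y 7)⟩

theorem cert_neg (q : ℕ) (hq : 1 ≤ q) : negWeight cert q ≤ 26 * q ^ 3 := by
  have h := negWeight_le cert 3 (by decide +kernel) q hq
  have hc : cert.countP (fun t => decide (t.2 < 0)) = 26 := by decide +kernel
  rwa [hc] at h

theorem exists_graph (q : ℕ) (hq : 1 ≤ q) : ∃ (n : ℕ) (G : SimpleGraph (Fin n)),
    q ^ 8 ≤ nPlus G + 26 * q ^ 3 ∧ nMinus G ≤ 26 * q ^ 3 := by
  have : NeZero q := ⟨by omega⟩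
  obtain ⟨h1, h2⟩ := code_inertia (lin q) cert cert_top
    (fun x y => cert_bool _ (lin_closed q x y)) [0, 1, 2, 3, 4, 5, 7, 8] 1
    (by decide) (by norm_num) (by
      intro x y h
      have h0 := h 0 (by simp)
      have h1 := h 1 (by simp)
      have h2 := h 2 (by simp)
      have h3 := h 3 (by simp)
      have h4 := h 4 (by simp)
      have h5 := h 5 (by simp)
      have h7 := h 7 (by simp)
      have h8 := h 8 (by simp)
      funext i
      fin_cases i
      · exact h0
      · exact h1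
      · exact h2
      · exact h3
      · exact h4
      · exact h5
      · exact h7
      · exact h8)
  have hc : Fintype.card (Fin 8 → ZMod q) = q ^ 8 := by simp [ZMod.card]
  have hw := cert_neg q hq
  rw [hc, ZMod.card] at h1
  rw [ZMod.card] at h2
  obtain ⟨n, H, e1, e2⟩ := transport (codeGraph (lin q) cert cert_top)
  exact ⟨n, H, by rw [e1]; omega, by rw [e2]; omega⟩

/-- There are graphs with arbitrarily large positive inertia for which `n⁺ ≥ c (n⁻)^{8/3}`. -/
theorem result :
    ∃ c : ℝ, 0 < c ∧ ∀ N : ℕ, ∃ (n : ℕ) (G : SimpleGraph (Fin n)),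
      N ≤ nPlus G ∧ c * (nMinus G : ℝ) ^ (8 / 3 : ℝ) ≤ nPlus G := by
  have h := power_law 8 3 26 (by norm_num) (by norm_num) exists_graph
  simpa using h

end Pool.Agent.Results.MP_f59665_co.EightThirds
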