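import Pool.Agent.Helper56.InSub

namespace Pool.Agent.Results.MP_f59665_co.SubExp

open Pool.Agent.Helper16.Inertia

/-- For every graph, `n⁺ ≤ exp (600 √n⁻ (log (n⁻ + 1))²)`. -/
theorem result : ∀ (n : ℕ) (G : SimpleGraph (Fin n)),
    (nPlus G : ℝ) ≤
      Real.exp (600 * Real.sqrt (nMinus G) * Real.log ((nMinus G : ℝ) + 1) ^ 2) :=
  fun _ G => Pool.Agent.Helper56.In.nPlus_le_subexp G

end Pool.Agent.Results.MP_f59665_co.SubExp
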