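import Pool.Agent.Helper56.InVCFinal

namespace Pool.Agent.Results.MP_f59665_co.VCBound

open Pool.Agent.Helper16.Inertia Pool.Agent.Helper56.In

/-- For graphs whose neighbourhoods have VC dimension at most `d`, the positive inertia is
bounded by a polynomial (of degree about `d`) in the negative inertia. -/
theorem result : ∀ d : ℕ, 1 ≤ d → ∀ (n : ℕ) (G : SimpleGraph (Fin n)), VCDimLE G d →
    (nPlus G : ℝ) ≤ 2 * ((34 * d * ((nMinus G : ℝ) + 1)) *
      Real.log (34 * d * ((nMinus G : ℝ) + 1))) ^ d :=
  fun d hd _ G hG => nPlus_le_of_vc G d hd hG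

end Pool.Agent.Results.MP_f59665_co.VCBound
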